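import Pool.Agent.PFE.StmtsE1

/-! Squad PFE, row CUF: the Frobenius system of `C` for the form `λ ∘ j`. -/

open scoped BigOperators

noncomputable section

namespace Pool.Agent.PFE.H47

open Pool.Agent.PFC.B1 (FS Split)

theorem cuf (CFS : CfsStmt) : CufStmt := by
  intro K A X S J Ω Ω' C _ _ _ _ _ _ _ _ _ _ _ _ y l χ D L F E
  obtain ⟨c0, -, hlam, hb, hb', hsym, -⟩ :=
    CFS K S C X Ω L.toGS F.toSF l χ E.Q D.hl D.χl
  have hu : E.u' * E.u = 1 := by rw [← E.uc, E.uu]
  have hc : ∀ c, E.u' * c = c * E.u' := by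
    intro c
    calc E.u' * c = E.u' * c * (E.u * E.u') := by rw [E.uu, mul_one]
      _ = E.u' * (c * E.u) * E.u' := by simp only [mul_assoc]
      _ = E.u' * (E.u * c) * E.u' := by rw [E.uc]
      _ = (E.u' * E.u) * c * E.u' := by simp only [mul_assoc]
      _ = c * E.u' := by rw [hu, one_mul]
  have ht : ∀ a, D.d.lam (E.j a) = c0.lam (E.u * a) := by
    intro a
    rw [E.ut, E.t0e, hlam]
  refine ⟨hc, hu, ?_⟩
  refine ⟨{ lam := D.d.lam ∘ₗ E.j.toLinearMap
            b := c0.b
            b' := fun p => E.u' * c0.b' p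
            h1 := ?_
            h2 := ?_ }, fun a => rfl, hb, fun p => ?_, fun a b => ?_⟩
  · intro x
    have : ∀ p, (D.d.lam ∘ₗ E.j.toLinearMap) (E.u' * c0.b' p * x) = c0.lam (c0.b' p * x) := by
      intro p
      show D.d.lam (E.j (E.u' * c0.b' p * x)) = _
      rw [ht, ← mul_assoc, ← mul_assoc, E.uu, one_mul]
    simp only [this]
    exact c0.h1 x
  · intro x
    have : ∀ p, (D.d.lam ∘ₗ E.j.toLinearMap) (x * c0.b p) = c0.lam (E.u * x * c0.b p) := by
      intro p
      show D.d.lam (E.j (x * c0.b p)) = _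
      rw [ht, ← mul_assoc]
    simp only [this]
    have h2 := c0.h2 (E.u * x)
    calc ∑ p, c0.lam (E.u * x * c0.b p) • (E.u' * c0.b' p)
        = E.u' * ∑ p, c0.lam (E.u * x * c0.b p) • c0.b' p := by
          rw [Finset.mul_sum]
          refine Finset.sum_congr rfl fun p _ => ?_
          rw [mul_smul_comm]
      _ = x := by rw [h2, ← mul_assoc, hu, one_mul]
  · show E.u' * c0.b' p = _
    rw [hb']
  · show D.d.lam (E.j (a * b)) = D.d.lam (E.j (b * a))
    rw [map_mul E.j, map_mul E.j, D.ds]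

end Pool.Agent.PFE.H47
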