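import Pool.Agent.PFE.StmtsE1

/-! Squad PFE, row NIL: the homogeneous ideal is nilpotent. -/

open scoped BigOperators

noncomputable section

namespace Pool.Agent.PFE.H47

open Pool.Agent.PFC.B1 (FS Split)

/-- powers of a span are spanned by products of lists -/
theorem nil_span_pow {K A : Type} [Field K] [Ring A] [Algebra K A] (s : Set A) (hs : s.Nonempty)
    (n : ℕ) : (Submodule.span K s) ^ n ≤
      Submodule.span K {p | ∃ f : ℕ → A, (∀ i, f i ∈ s) ∧ p = ((List.range n).map f).prod} := by
  obtain ⟨s0, hs0⟩ := hs
  induction n with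
  | zero =>
    rw [pow_zero, Submodule.one_eq_span]
    refine Submodule.span_mono ?_
    rintro x hx
    rw [Set.mem_singleton_iff] at hx
    exact ⟨fun _ => s0, fun _ => hs0, by simp [hx]⟩
  | succ n ih =>
    rw [pow_succ]
    refine (mul_le_mul' ih le_rfl).trans ?_
    rw [Submodule.span_mul_span]
    refine Submodule.span_mono ?_
    rintro x ⟨p, ⟨f, hf, rfl⟩, q, hq, rfl⟩
    refine ⟨fun i => if i < n then f i else q, fun i => ?_, ?_⟩
    · by_cases h : i < n
      · simp only [h, if_true]; exact hf i
      · simp only [h, if_false]; exact hq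
    · show _ * q = _
      rw [List.range_succ, List.map_append, List.prod_append]
      have h1 : (List.range n).map (fun i => if i < n then f i else q) = (List.range n).map f := by
        refine List.map_congr_left fun i hi => ?_
        rw [List.mem_range] at hi
        simp only [hi, if_true]
      rw [h1]
      simp

theorem nil_mono {K A : Type} [Field K] [Ring A] [Algebra K A] {P Q R : Submodule K A} {z : A}
    (h : Q ≤ R) (hz : z ∈ P * Q) : z ∈ P * R :=
  (mul_le_mul' le_rfl h : P * Q ≤ P * R) hz

theorem nil (TXR : TxrStmt) (TXA : TxaStmt) : NilStmt := by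
  classical
  intro K A X _ _ _ _ _ y l χ hl hy hχ hM
  obtain ⟨M, hM⟩ := hM
  obtain ⟨r1, r2, r3, r4, r5, -, -⟩ := TXR K A X y l χ hl hy hχ
  obtain ⟨a1, a2, a3, -, -⟩ := TXA K A X y l χ hl hy hχ
  -- the twisted traces
  let T : X → Submodule K A := fun x =>
    LinearMap.range ({ toFun := fun a => Tx y l (χ x) a
                       map_add' := a1 (χ x)
                       map_smul' := fun r a => a2 (χ x) r a } : A →ₗ[K] A)
  have hT : ∀ x b, b ∈ T x ↔ ∃ a, Tx y l (χ x) a = b := fun x b => Iff.rfl
  have hTT : ∀ z w, T z * T w ≤ T (z * w) := by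
    intro z w
    rw [Submodule.mul_le]
    rintro p ⟨a, rfl⟩ q ⟨b, rfl⟩
    exact ⟨Tx y l (χ z) a * b, (r2 z w _ b (r1 z a)).symm⟩
  have hT1 : (T 1) ^ M = ⊥ := by
    have e : T 1 = Submodule.span K {b | ∃ a, Tx y l (1 : K) a = b} := by
      rw [← Submodule.span_eq (T 1)]
      refine congrArg _ (Set.ext fun b => ?_)
      show b ∈ T 1 ↔ _
      rw [hT, map_one]
      rfl
    rw [e, eq_bot_iff]
    refine (nil_span_pow {b | ∃ a, Tx y l (1 : K) a = b} ⟨Tx y l (1 : K) 0, 0, rfl⟩ M).trans ?_
    rw [Submodule.span_le]
    rintro p ⟨f, hf, rfl⟩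
    choose a ha using hf
    have := hM a
    simp only [ha] at this
    show _ ∈ (⊥ : Submodule K A)
    rw [Submodule.mem_bot]
    exact this
  -- products of twisted traces
  let W : X → Submodule K A := fun z => if z = 1 then 1 else T z
  have hW : ∀ z w, W z * T w ≤ T (z * w) := by
    intro z w
    by_cases h : z = 1
    · simp only [W, h, if_true, one_mul]
      exact le_rfl
    · simp only [W, h, if_false]
      exact hTT z w
  have key : ∀ (x : ℕ → X) (t : ℕ → A), (∀ i, t i ∈ T (x i)) → ∀ i v,
      1 ≤ ((Finset.range (i + 1)).filter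
        (fun j => ((List.range j).map x).prod = v)).card →
      ((List.range i).map t).prod ∈ (⊤ : Submodule K A) *
        (T 1) ^ (((Finset.range (i + 1)).filter
          (fun j => ((List.range j).map x).prod = v)).card - 1) *
        W (v⁻¹ * ((List.range i).map x).prod) := by
    intro x t ht i
    induction i with
    | zero =>
      intro v hv
      have h1 : (Finset.range (0 + 1)).filter
          (fun j => ((List.range j).map x).prod = v) = {0} := by
        apply Finset.Subset.antisymm
        · intro j hj
          rw [Finset.mem_filter, Finset.mem_range] at hj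
          rw [Finset.mem_singleton]
          omega
        · obtain ⟨j, hj⟩ := Finset.card_pos.1 hv
          intro k hk
          rw [Finset.mem_singleton] at hk
          have h2 := Finset.mem_filter.1 hj
          have h3 : j = 0 := by
            have := Finset.mem_range.1 h2.1
            omega
          rw [hk]
          rw [h3] at hj
          exact hj
      have h2 : ((List.range 0).map x).prod = v := by
        have : (0 : ℕ) ∈ (Finset.range (0 + 1)).filter
          (fun j => ((List.range j).map x).prod = v) := by rw [h1]; exact Finset.mem_singleton_self 0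
        exact (Finset.mem_filter.1 this).2
      rw [h1, Finset.card_singleton, Nat.sub_self, pow_zero, mul_one, h2, inv_mul_cancel]
      simp only [W, if_true, mul_one]
      exact Submodule.mem_top
    | succ i ih =>
      intro v hv
      have hp : ((List.range (i + 1)).map t).prod = ((List.range i).map t).prod * t i := by
        rw [List.range_succ, List.map_append, List.prod_append]; simp
      have hx : ((List.range (i + 1)).map x).prod = ((List.range i).map x).prod * x i := by
        rw [List.range_succ, List.map_append, List.prod_append]; simp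
      have hf : (Finset.range (i + 1 + 1)).filter
          (fun j => ((List.range j).map x).prod = v) =
          if ((List.range (i + 1)).map x).prod = v then
            insert (i + 1) ((Finset.range (i + 1)).filter
              (fun j => ((List.range j).map x).prod = v))
          else (Finset.range (i + 1)).filter (fun j => ((List.range j).map x).prod = v) := by
        rw [Finset.range_add_one (n := i + 1), Finset.filter_insert]
      have hni : (i + 1) ∉ (Finset.range (i + 1)).filter
          (fun j => ((List.range j).map x).prod = v) := by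
        intro h
        have := Finset.mem_range.1 (Finset.mem_filter.1 h).1
        omega
      by_cases hg : ((List.range (i + 1)).map x).prod = v
      · rw [if_pos hg] at hf
        rw [hf, Finset.card_insert_of_notMem hni, Nat.add_sub_cancel, hg, inv_mul_cancel]
        have hW1 : W 1 = 1 := by simp only [W, if_true]
        rw [hW1, mul_one]
        by_cases h0 : ((Finset.range (i + 1)).filter
          (fun j => ((List.range j).map x).prod = v)).card = 0
        · rw [h0, pow_zero, mul_one]
          exact Submodule.mem_top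
        · have h1 := ih v (Nat.one_le_iff_ne_zero.2 h0)
          obtain ⟨k, hk⟩ := Nat.exists_eq_succ_of_ne_zero h0
          rw [hk] at h1 ⊢
          rw [Nat.succ_sub_one] at h1
          rw [Nat.succ_eq_add_one, pow_succ, ← mul_assoc, hp]
          have h2 := Submodule.mul_mem_mul h1 (ht i)
          rw [mul_assoc (⊤ * T 1 ^ k)] at h2
          refine nil_mono ?_ h2
          refine (hW _ _).trans ?_
          rw [mul_assoc, ← hx, hg, inv_mul_cancel]
      · rw [if_neg hg] at hf
        rw [hf] at hv ⊢
        have h1 := ih v hv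
        rw [hp]
        have h2 := Submodule.mul_mem_mul h1 (ht i)
        rw [mul_assoc (⊤ * T 1 ^ _)] at h2
        refine nil_mono ?_ h2
        refine (hW _ _).trans ?_
        rw [mul_assoc, ← hx]
        have h3 : v⁻¹ * ((List.range (i + 1)).map x).prod ≠ 1 := by
          intro h
          exact hg (inv_mul_eq_one.1 h).symm
        simp only [W, h3, if_false]
        exact le_rfl
  -- the powers of the ideal of the twisted traces
  let TT : Submodule K A := Submodule.span K {b | ∃ x a, Tx y l (χ x) a = b}
  have hTTP : TT ^ (Fintype.card X * M) = ⊥ := by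
    rw [eq_bot_iff]
    refine (nil_span_pow {b | ∃ x a, Tx y l (χ x) a = b} ⟨Tx y l (χ 1) 0, 1, 0, rfl⟩ _).trans ?_
    rw [Submodule.span_le]
    rintro p ⟨f, hf, rfl⟩
    choose x a ha using hf
    have hk := key x f (fun i => ⟨a i, ha i⟩) (Fintype.card X * M)
    have hpig := Finset.exists_lt_card_fiber_of_mul_lt_card_of_maps_to
      (s := Finset.range (Fintype.card X * M + 1)) (t := (Finset.univ : Finset X))
      (f := fun j => ((List.range j).map x).prod) (n := M) (fun _ _ => Finset.mem_univ _)
      (by rw [Finset.card_range, Finset.card_univ]; omega)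
    obtain ⟨v, -, hv⟩ := hpig
    have h1 := hk v (by omega)
    have h2 : (T 1) ^ (((Finset.range (Fintype.card X * M + 1)).filter
          (fun j => ((List.range j).map x).prod = v)).card - 1) = ⊥ := by
      obtain ⟨k, hk'⟩ : ∃ k, ((Finset.range (Fintype.card X * M + 1)).filter
          (fun j => ((List.range j).map x).prod = v)).card - 1 = M + k :=
        ⟨_, (Nat.add_sub_of_le (by omega)).symm⟩
      rw [hk', pow_add, hT1, Submodule.bot_mul]
    rw [h2, Submodule.mul_bot, Submodule.bot_mul] at h1
    exact h1
  -- the elements `y n`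
  let YN : ℕ → Submodule K A := fun k => Submodule.span K {b | ∃ x, ∃ n ∈ Nx y χ x, b = y ^ k * n}
  have hYY : ∀ k, YN k * YN 1 ≤ YN (k + 1) := by
    intro k
    simp only [YN]
    rw [Submodule.span_mul_span, Submodule.span_le]
    rintro p ⟨b, ⟨x, n, hn, rfl⟩, c, ⟨x', n', hn', rfl⟩, rfl⟩
    show y ^ k * n * (y ^ 1 * n') ∈ Submodule.span K _
    have h1 := (r5 x n hn).2.2 1
    have hu : χ x * χ x⁻¹ = 1 := by rw [← map_mul, mul_inv_cancel, map_one]
    have h2 : n * y = χ x⁻¹ • (y * n) := by
      rw [pow_one, pow_one] at h1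
      rw [h1, smul_smul, mul_comm, hu, one_smul]
    have h3 : y ^ k * n * (y ^ 1 * n') = χ x⁻¹ • (y ^ (k + 1) * (n * n')) := by
      rw [pow_one]
      calc y ^ k * n * (y * n') = y ^ k * (n * y) * n' := by simp only [mul_assoc]
        _ = y ^ k * (χ x⁻¹ • (y * n)) * n' := by rw [h2]
        _ = χ x⁻¹ • (y ^ (k + 1) * (n * n')) := by
          rw [mul_smul_comm, smul_mul_assoc, pow_succ]
          simp only [mul_assoc]
    rw [h3]
    exact Submodule.smul_mem _ _ (Submodule.subset_span ⟨x * x', n * n', Nx_mul hn hn', rfl⟩)
  have hTX : ∀ x a x' n, n ∈ Nx y χ x' → Tx y l (χ x) a * n ∈ TT ∧ n * Tx y l (χ x) a ∈ TT := by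
    intro x a x' n hn
    constructor
    · rw [r3 x' x n a hn]
      exact Submodule.subset_span ⟨_, _, rfl⟩
    · rw [r2 x' x n a hn]
      exact Submodule.subset_span ⟨_, _, rfl⟩
  have hyN : ∀ k x n, n ∈ Nx y χ x → y ^ k * n ∈ Nx y χ x := by
    intro k
    induction k with
    | zero => intro x n hn; rw [pow_zero, one_mul]; exact hn
    | succ k ih => intro x n hn; rw [pow_succ, mul_assoc]; exact ih x _ (r5 x n hn).1
  have hTY : ∀ k, TT * YN k ≤ TT := by
    intro k
    simp only [TT, YN]
    rw [Submodule.span_mul_span, Submodule.span_le]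
    rintro p ⟨b, ⟨x, a, rfl⟩, c, ⟨x', n', hn', rfl⟩, rfl⟩
    exact (hTX x a x' _ (hyN k x' n' hn')).1
  have hYT : ∀ k, YN k * TT ≤ TT := by
    intro k
    simp only [TT, YN]
    rw [Submodule.span_mul_span, Submodule.span_le]
    rintro p ⟨c, ⟨x', n', hn', rfl⟩, b, ⟨x, a, rfl⟩, rfl⟩
    exact (hTX x a x' _ (hyN k x' n' hn')).2
  have hTTT : TT * TT ≤ TT := by
    simp only [TT]
    rw [Submodule.span_mul_span, Submodule.span_le]
    rintro p ⟨c, ⟨x', a', rfl⟩, b, ⟨x, a, rfl⟩, rfl⟩
    exact (hTX x a x' _ (r1 x' a')).2
  let JJ : Submodule K A := TT ⊔ YN 1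
  have hJk : ∀ k, JJ ^ k ≤ TT ⊔ YN k := by
    intro k
    induction k with
    | zero =>
      rw [pow_zero]
      refine le_trans ?_ le_sup_right
      rw [Submodule.one_eq_span, Submodule.span_le]
      rintro x hx
      rw [Set.mem_singleton_iff] at hx
      rw [hx]
      exact Submodule.subset_span ⟨1, 1, Nx_one y χ, by rw [pow_zero, one_mul]⟩
    | succ k ih =>
      rw [pow_succ]
      refine (mul_le_mul' ih le_rfl).trans ?_
      show (TT ⊔ YN k) * (TT ⊔ YN 1) ≤ _
      rw [Submodule.sup_mul, Submodule.mul_sup, Submodule.mul_sup]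
      refine sup_le (sup_le (hTTT.trans le_sup_left) ((hTY 1).trans le_sup_left))
        (sup_le ((hYT k).trans le_sup_left) ((hYY k).trans le_sup_right))
  have hYl : YN l = ⊥ := by
    rw [eq_bot_iff, Submodule.span_le]
    rintro p ⟨x, n, hn, rfl⟩
    show _ ∈ (⊥ : Submodule K A)
    rw [hy, zero_mul]
    exact Submodule.zero_mem _
  have hJl : JJ ^ l ≤ TT := by
    have := hJk l
    rwa [hYl, sup_bot_eq] at this
  have hJP : JJ ^ (l * (Fintype.card X * M)) = ⊥ := by
    rw [eq_bot_iff, pow_mul]
    refine (pow_le_pow_left' hJl _).trans ?_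
    rw [hTTP]
  have hJx : ∀ x b, b ∈ Jx y l χ x → b ∈ JJ := by
    intro x b hb
    obtain ⟨a, n, hn, rfl⟩ := (a3 x b).1 hb
    refine Submodule.add_mem _ ?_ ?_
    · exact Submodule.mem_sup_left (Submodule.subset_span ⟨x, a, rfl⟩)
    · refine Submodule.mem_sup_right (Submodule.subset_span ⟨x, n, hn, ?_⟩)
      rw [pow_one]
  refine ⟨l * (Fintype.card X * M), ?_⟩
  rw [eq_bot_iff, ← hJP, JP, Submodule.span_le]
  rintro p ⟨f, hf, rfl⟩
  show _ ∈ JJ ^ _
  generalize l * (Fintype.card X * M) = n
  induction n with
  | zero => simp only [List.range_zero, List.map_nil, List.prod_nil, pow_zero]; exact Submodule.one_le.1 le_rfl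
  | succ n ih =>
    rw [List.range_succ, List.map_append, List.prod_append, pow_succ]
    refine Submodule.mul_mem_mul ih ?_
    simp only [List.map_cons, List.map_nil, List.prod_cons, List.prod_nil, mul_one]
    obtain ⟨x, hx⟩ := hf n
    exact hJx x _ hx

end Pool.Agent.PFE.H47
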